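import Pool.Agent.Helper88.EL.Basic

/-!
# SL_2(ℤ[x,1/x]) = E_2(ℤ[x,1/x]): module EL-EUCLID (FrIndStmt), MP_287ff4_al
-/

set_option autoImplicit false

namespace Pool.Agent.Helper15.EL

open LaurentPolynomial Matrix Pool.Agent.Helper88.EL

/-- the monoid generated by the moves -/
noncomputable def S : Submonoid M2 :=
  Submonoid.closure ({M | ∃ u u' : Q2, dq u u' = 1 ∧ M = bas u u'} ∪ {Dm 1, Dm (-1)})

theorem bas_mem {u u' : Q2} (h : dq u u' = 1) : bas u u' ∈ S :=
  Submonoid.subset_closure (Or.inl ⟨u, u', h, rfl⟩)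

theorem Dm_one_mem : Dm 1 ∈ S := Submonoid.subset_closure (Or.inr (by simp))
theorem Dm_neg_one_mem : Dm (-1) ∈ S := Submonoid.subset_closure (Or.inr (by simp))

theorem Dm_mem (n : ℤ) : Dm n ∈ S := by
  induction n with
  | zero => rw [Dm_zero]; exact S.one_mem
  | succ k ih => rw [Dm_add]; exact S.mul_mem ih Dm_one_mem
  | pred k ih => rw [sub_eq_add_neg, Dm_add]; exact S.mul_mem ih Dm_neg_one_mem

theorem isFr_of_mem {M : M2} (h : M ∈ S) : IsFr M := by
  induction h using Submonoid.closure_induction with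
  | mem x hx =>
    rcases hx with ⟨u, u', h, rfl⟩ | hx
    · exact isFr_bas h
    · rcases hx with rfl | hx
      · exact isFr_Dm 1
      · rw [Set.mem_singleton_iff.1 hx]; exact isFr_Dm (-1)
  | one => exact isFr_one
  | mul x y _ _ hx hy => exact hx.mul hy

theorem Um_C_mem (c : ℚ) : Um (C c) ∈ S := by
  have h : Um (C c) = bas ![1, 0] ![c, 1] := by
    ext i j : 2; fin_cases i <;> fin_cases j <;> simp [Um, bas]
  rw [h]; exact bas_mem (by simp [dq])

theorem Um_mem (f : AQ) : Um f ∈ S := by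
  induction f using LaurentPolynomial.induction_on' with
  | add p q hp hq => rw [Um_add]; exact S.mul_mem hp hq
  | C_mul_T n a =>
    have h : Um (C a * T n) = Dm (-n) * (Um (C a) * Dm n) := by
      rw [Um_mul_Dm, ← mul_assoc, ← Dm_add, neg_add_cancel, Dm_zero, one_mul, mul_comm]
    rw [h]; exact S.mul_mem (Dm_mem _) (S.mul_mem (Um_C_mem a) (Dm_mem n))

/-- `J = (0 -1; 1 0)`. -/
noncomputable def J : M2 := !![0, -1; 1, 0]
/-- `J⁻¹`. -/
noncomputable def J' : M2 := !![0, 1; -1, 0]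

theorem J_mem : J ∈ S := by
  have h : J = bas ![0, 1] ![-1, 0] := by
    ext i j : 2; fin_cases i <;> fin_cases j <;> simp [J, bas]
  rw [h]; exact bas_mem (by simp [dq])

theorem J'_mem : J' ∈ S := by
  have h : J' = bas ![0, -1] ![1, 0] := by
    ext i j : 2; fin_cases i <;> fin_cases j <;> simp [J', bas]
  rw [h]; exact bas_mem (by simp [dq])

/-- the elements of `S` with an inverse in `S` -/
def Sv (M : M2) : Prop := M ∈ S ∧ ∃ M' ∈ S, M * M' = 1

theorem Sv.mul {M N : M2} (hM : Sv M) (hN : Sv N) : Sv (M * N) := by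
  obtain ⟨h1, M', h2, h3⟩ := hM
  obtain ⟨k1, N', k2, k3⟩ := hN
  refine ⟨S.mul_mem h1 k1, N' * M', S.mul_mem k2 h2, ?_⟩
  calc M * N * (N' * M') = M * (N * N') * M' := by simp only [mul_assoc]
    _ = 1 := by rw [k3, mul_one, h3]

theorem Sv_J : Sv J := ⟨J_mem, J', J'_mem, by
  ext i j : 2; fin_cases i <;> fin_cases j <;> simp [J, J', Matrix.mul_apply, Fin.sum_univ_two]⟩
theorem Sv_J' : Sv J' := ⟨J'_mem, J, J_mem, by
  ext i j : 2; fin_cases i <;> fin_cases j <;> simp [J, J', Matrix.mul_apply, Fin.sum_univ_two]⟩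
theorem Sv_Um (f : AQ) : Sv (Um f) := ⟨Um_mem f, Um (-f), Um_mem _, by
  rw [← Um_add, add_neg_cancel, Um_zero]⟩
theorem Sv_Dm (n : ℤ) : Sv (Dm n) := ⟨Dm_mem n, Dm (-n), Dm_mem _, by
  rw [← Dm_add, add_neg_cancel, Dm_zero]⟩

/-- `diag(x^n, 1)`. -/
noncomputable def Dl (n : ℤ) : M2 := !![T n, 0; 0, 1]

theorem Dl_eq (n : ℤ) : Dl n = J * Dm n * J' := by
  ext i j : 2; fin_cases i <;> fin_cases j <;>
    simp [J, J', Dl, Dm, Matrix.mul_apply, Fin.sum_univ_two]

theorem Sv_Dl (n : ℤ) : Sv (Dl n) := by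
  rw [Dl_eq]; exact (Sv_J.mul (Sv_Dm n)).mul Sv_J'

/-- a row which can be reduced to `(d, 0)` -/
def Red (a b : AQ) : Prop := ∃ M, Sv M ∧ a * M 0 1 + b * M 1 1 = 0

theorem Red.of_mul {a b : AQ} {N : M2} (hN : Sv N)
    (h : Red (a * N 0 0 + b * N 1 0) (a * N 0 1 + b * N 1 1)) : Red a b := by
  obtain ⟨M, hM, h0⟩ := h
  refine ⟨N * M, hN.mul hM, ?_⟩
  simp only [Matrix.mul_apply, Fin.sum_univ_two]
  linear_combination h0

theorem red_poly (p q : Polynomial ℚ) :
    Red (Polynomial.toLaurent p) (Polynomial.toLaurent q) ∧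
    Red (Polynomial.toLaurent p) (-Polynomial.toLaurent q) := by
  induction p, q using EuclideanDomain.GCD.induction with
  | H0 x =>
    constructor
    · exact ⟨J, Sv_J, by simp [J]⟩
    · exact ⟨J, Sv_J, by simp [J]⟩
  | H1 a b ha ih =>
    obtain ⟨h1, h2⟩ := ih
    have hr : Polynomial.toLaurent b =
        Polynomial.toLaurent a * Polynomial.toLaurent (b / a) + Polynomial.toLaurent (b % a) := by
      rw [← map_mul, ← map_add, EuclideanDomain.div_add_mod]
    constructor
    · refine Red.of_mul (Sv_Um (-Polynomial.toLaurent (b / a))) ?_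
      refine Red.of_mul Sv_J ?_
      have e1 : (Polynomial.toLaurent a * Um (-Polynomial.toLaurent (b / a)) 0 0 +
          Polynomial.toLaurent b * Um (-Polynomial.toLaurent (b / a)) 1 0) * J 0 0 +
          (Polynomial.toLaurent a * Um (-Polynomial.toLaurent (b / a)) 0 1 +
          Polynomial.toLaurent b * Um (-Polynomial.toLaurent (b / a)) 1 1) * J 1 0
          = Polynomial.toLaurent (b % a) := by
        simp [Um, J]; linear_combination hr
      have e2 : (Polynomial.toLaurent a * Um (-Polynomial.toLaurent (b / a)) 0 0 +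
          Polynomial.toLaurent b * Um (-Polynomial.toLaurent (b / a)) 1 0) * J 0 1 +
          (Polynomial.toLaurent a * Um (-Polynomial.toLaurent (b / a)) 0 1 +
          Polynomial.toLaurent b * Um (-Polynomial.toLaurent (b / a)) 1 1) * J 1 1
          = -Polynomial.toLaurent a := by
        simp [Um, J]
      rw [e1, e2]; exact h2
    · refine Red.of_mul (Sv_Um (Polynomial.toLaurent (b / a))) ?_
      refine Red.of_mul Sv_J' ?_
      have e1 : (Polynomial.toLaurent a * Um (Polynomial.toLaurent (b / a)) 0 0 +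
          (-Polynomial.toLaurent b) * Um (Polynomial.toLaurent (b / a)) 1 0) * J' 0 0 +
          (Polynomial.toLaurent a * Um (Polynomial.toLaurent (b / a)) 0 1 +
          (-Polynomial.toLaurent b) * Um (Polynomial.toLaurent (b / a)) 1 1) * J' 1 0
          = Polynomial.toLaurent (b % a) := by
        simp [Um, J']; linear_combination hr
      have e2 : (Polynomial.toLaurent a * Um (Polynomial.toLaurent (b / a)) 0 0 +
          (-Polynomial.toLaurent b) * Um (Polynomial.toLaurent (b / a)) 1 0) * J' 0 1 +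
          (Polynomial.toLaurent a * Um (Polynomial.toLaurent (b / a)) 0 1 +
          (-Polynomial.toLaurent b) * Um (Polynomial.toLaurent (b / a)) 1 1) * J' 1 1
          = Polynomial.toLaurent a := by
        simp [Um, J']
      rw [e1, e2]; exact h1

theorem red_all (a b : AQ) : Red a b := by
  obtain ⟨n, p, hp⟩ := LaurentPolynomial.exists_T_pow a
  obtain ⟨m, q, hq⟩ := LaurentPolynomial.exists_T_pow b
  refine Red.of_mul (Sv_Dl n) (Red.of_mul (Sv_Dm m) ?_)
  have := (red_poly p q).1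
  rw [hp, hq] at this
  simpa [Dl, Dm] using this

/-- factors of a power of `x` -/
theorem eq_of_mul_eq_T {d f : AQ} {k : ℤ} (h : d * f = T k) :
    ∃ (c : ℚ) (i : ℤ), c ≠ 0 ∧ d = C c * T i := by
  obtain ⟨n, p, hp⟩ := LaurentPolynomial.exists_T_pow d
  obtain ⟨m, q, hq⟩ := LaurentPolynomial.exists_T_pow f
  obtain ⟨r, hr⟩ : ∃ r : ℕ, 0 ≤ k + n + m + r := ⟨k.natAbs, by omega⟩
  obtain ⟨N, hN⟩ := Int.eq_ofNat_of_zero_le hr
  have h1 : Polynomial.toLaurent (p * (q * Polynomial.X ^ r)) =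
      Polynomial.toLaurent ((Polynomial.X : Polynomial ℚ) ^ N) := by
    rw [map_mul, map_mul, Polynomial.toLaurent_X_pow, Polynomial.toLaurent_X_pow, hp, hq]
    calc d * T n * (f * T m * T r) = (d * f) * (T n * T m * T r) := by ring
      _ = T (k + n + m + r) := by rw [h, ← T_add, ← T_add, ← T_add]; congr 1; ring
      _ = T (N : ℤ) := by rw [hN]
  have h2 := Polynomial.toLaurent_injective h1
  have h3 : p ∣ Polynomial.X ^ N := ⟨_, h2.symm⟩
  obtain ⟨i, _, hi⟩ := (dvd_prime_pow Polynomial.prime_X N).1 h3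
  obtain ⟨u, hu⟩ := hi.symm
  obtain ⟨c, hc, hc'⟩ := Polynomial.isUnit_iff.1 u.isUnit
  refine ⟨c, i - n, hc.ne_zero, ?_⟩
  have h4 : d * T n = C c * T i := by
    rw [← hp, ← hu, ← hc', map_mul, Polynomial.toLaurent_X_pow, Polynomial.toLaurent_C, mul_comm]
  have h5 : d = (d * T n) * T (-n) := by
    rw [mul_assoc, ← T_add, add_neg_cancel, T_zero, mul_one]
  rw [h5, h4, mul_assoc, ← T_add, ← sub_eq_add_neg]

theorem mem_S {g : M2} (hg : IsFr g) : g ∈ S := by
  obtain ⟨M, ⟨hM, M', hM', hMM'⟩, h0⟩ := red_all (g 0 0) (g 0 1)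
  have hgM : g = g * M * M' := by rw [mul_assoc, hMM', mul_one]
  rw [hgM]
  refine S.mul_mem ?_ hM'
  obtain ⟨k, hk⟩ := hg.mul (isFr_of_mem hM)
  set h := g * M with hh
  have h01 : h 0 1 = 0 := by
    rw [hh]; simp only [Matrix.mul_apply, Fin.sum_univ_two]; exact h0
  rw [Matrix.det_fin_two, h01, zero_mul, sub_zero] at hk
  obtain ⟨c, i, hc, hd⟩ := eq_of_mul_eq_T hk
  have hf : h 1 1 = C c⁻¹ * T (k - i) := by
    have h1 : (C c * T i : AQ) * (C c⁻¹ * T (-i)) = 1 := by
      calc (C c * T i : AQ) * (C c⁻¹ * T (-i)) = (C c * C c⁻¹) * (T i * T (-i)) := by ring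
        _ = 1 := by rw [← map_mul, mul_inv_cancel₀ hc, ← T_add, add_neg_cancel, T_zero, map_one, one_mul]
    calc h 1 1 = ((C c * T i : AQ) * (C c⁻¹ * T (-i))) * h 1 1 := by rw [h1, one_mul]
      _ = (h 0 0 * h 1 1) * (C c⁻¹ * T (-i)) := by rw [hd]; ring
      _ = C c⁻¹ * T (k - i) := by rw [hk, sub_eq_add_neg, T_add]; ring
  have hdec : h = (bas ![c, 0] ![0, c⁻¹] * Dl i * Dm (k - i)) *
      (J * Um (-(C c * T (-(k - i)) * h 1 0)) * J') := by
    have h1 : (C c⁻¹ : AQ) * C c = 1 := by rw [← map_mul, inv_mul_cancel₀ hc, map_one]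
    have h2 : (T (k - i) : AQ) * T (-(k - i)) = 1 := by rw [← T_add, add_neg_cancel, T_zero]
    ext a b : 2
    fin_cases a <;> fin_cases b
    · simp [J, J', Dl, Dm, Um, bas, Matrix.mul_apply, Fin.sum_univ_two, hd, -neg_sub]
    · simp [J, J', Dl, Dm, Um, bas, Matrix.mul_apply, Fin.sum_univ_two, h01, -neg_sub]
    · simp [J, J', Dl, Dm, Um, bas, Matrix.mul_apply, Fin.sum_univ_two, -neg_sub]
      have h3 : h 1 0 = C c⁻¹ * T (k - i) * (C c * T (-(k - i)) * h 1 0) := by
        calc h 1 0 = (C c⁻¹ * C c) * (T (k - i) * T (-(k - i))) * h 1 0 := by rw [h1, h2]; ring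
          _ = _ := by ring
      exact congrArg (fun f : AQ => f.coeff _) h3
    · simp [J, J', Dl, Dm, Um, bas, Matrix.mul_apply, Fin.sum_univ_two, hf, -neg_sub]
  rw [hdec]
  refine S.mul_mem (S.mul_mem (S.mul_mem (bas_mem ?_) (Sv_Dl i).1) (Dm_mem _))
    (S.mul_mem (S.mul_mem J_mem (Um_mem _)) J'_mem)
  simp [dq, mul_inv_cancel₀ hc]

theorem frInd : FrIndStmt := by
  intro P h1 hb hD hD' g hg
  have key : ∀ M ∈ S, ∀ g, P g → P (g * M) := by
    intro M hM
    induction hM using Submonoid.closure_induction with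
    | mem x hx =>
      rcases hx with ⟨u, u', h, rfl⟩ | hx
      · intro g hg; exact hb g u u' h hg
      · rcases hx with rfl | hx
        · exact hD
        · rw [Set.mem_singleton_iff.1 hx]; exact hD'
    | one => intro g hg; rwa [mul_one]
    | mul x y _ _ hx hy => intro g hg; rw [← mul_assoc]; exact hy _ (hx _ hg)
  have := key g (mem_S hg) 1 h1
  rwa [one_mul] at this

end Pool.Agent.Helper15.EL
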