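import Pool.Agent.Helper88.EL.Basic

/-!
# SL_2(ℤ[x,1/x]) = E_2(ℤ[x,1/x]): module EL-F1 (StepAStmt, DescentStmt, MobStmt), MP_287ff4_al
-/

set_option autoImplicit false

namespace Pool.Agent.Helper15.EL

open LaurentPolynomial Pool.Agent.Helper88.EL

theorem prim_E0_bas {L : AddSubgroup V} {u u' : Q2}
    (h : ∀ v, v ∈ E0 (cm (bas u u') L) ↔ bv u u' v ∈ E0 L) {v : Q2}
    (hv : Prim (E0 L) (bv u u' v)) : Prim (E0 (cm (bas u u') L)) v := by
  refine ⟨(h v).2 hv.1, fun c hc => hv.2 c ?_⟩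
  rw [← bv_smul]; exact (h _).1 hc

theorem prim_Ei_bas {L : AddSubgroup V} {u u' : Q2}
    (h : ∀ v, v ∈ Ei (cm (bas u u') L) ↔ bv u u' v ∈ Ei L) {v : Q2}
    (hv : Prim (Ei L) (bv u u' v)) : Prim (Ei (cm (bas u u') L)) v := by
  refine ⟨(h v).2 hv.1, fun c hc => hv.2 c ?_⟩
  rw [← bv_smul]; exact (h _).1 hc

theorem stepA (hLF : LatFrStmt) (hB : BasStmt) (hD : DStepStmt) : StepAStmt := by
  intro g hg u u' hu hu' h0 h1
  have hL := hLF g hg
  set δ := dq u u' with hδ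
  have hδ0 : δ ≠ 0 := abs_pos.1 h0
  set w : Q2 := δ⁻¹ • u' with hw
  have hdw : dq u w = 1 := by rw [hw, dq_smul_right, ← hδ, inv_mul_cancel₀ hδ0]
  obtain ⟨hL', htt, hall⟩ := hB (Lat g) hL u w hdw
  have hE0 : ∀ v, v ∈ E0 (cm (bas u w) (Lat g)) ↔ bv u w v ∈ E0 (Lat g) := fun v => (hall v).1
  have hEi : ∀ v, v ∈ Ei (cm (bas u w) (Lat g)) ↔ bv u w v ∈ Ei (Lat g) := fun v => (hall v).2.1
  have hp1 : Prim (E0 (cm (bas u w) (Lat g))) ((1:ℚ) • e1) := by
    rw [one_smul]; apply prim_E0_bas hE0; rw [bv_e1]; exact hu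
  have hp2 : Prim (Ei (cm (bas u w) (Lat g))) (|δ| • e2) := by
    apply prim_Ei_bas hEi
    rw [bv_smul, bv_e2, hw, smul_smul]
    rcases abs_choice δ with h | h
    · rw [h, mul_inv_cancel₀ hδ0, one_smul]; exact hu'
    · rw [h, neg_mul, mul_inv_cancel₀ hδ0, neg_smul, one_smul]; exact hu'.neg
  have hs := (hD _ hL' 1 |δ| one_pos h0 hp1 hp2).2.2
  set h := g * bas u w * Dm 1 with hh
  have hLh : Lat h = cm (Dm 1) (cm (bas u w) (Lat g)) := by rw [hh, Lat_mul, Lat_mul]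
  have hfr : IsFr h := (hg.mul_bas hdw).mul_Dm 1
  have hlt : tt (Lat h) < tt (Lat g) := by
    have hpos : (0:ℚ) < tt (Lat g) := by exact_mod_cast Nat.pos_of_ne_zero hL.fin
    have : (tt (Lat h) : ℚ) < tt (Lat g) := by
      rw [hLh, hs, htt, one_mul]
      calc |δ| * (tt (Lat g) : ℚ) < 1 * tt (Lat g) := by
            exact mul_lt_mul_of_pos_right h1 hpos
        _ = _ := one_mul _
    exact_mod_cast this
  have hFr : Fr (tt (Lat g)) h := ⟨hfr, hlt⟩
  have ho1 : OnL (vec g u) h := by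
    have := onL_vec h e1_ne_zero
    rwa [hh, vec_mul_Dm_e1, vec_mul_bas, bv_e1, ← hh] at this
  have ho2 : OnL (vec g u') h := by
    have := onL_vec h e2_ne_zero
    rw [hh, vec_mul_Dm_e2, vec_mul_bas, bv_e2, ← hh, onL_smul_T_iff, hw, vec_smul,
      onL_smul_C_iff (inv_ne_zero hδ0)] at this
    exact this
  exact same_of_frame hFr ho1 ho2

theorem mob (hLF : LatFrStmt) (_hC : CovBasicStmt) (hA : StepAStmt) (hSB : StepBStmt) : MobStmt := by
  intro g hg hne v w hv hw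
  have hL := hLF g hg
  refine hSB (E0 (Lat g)) (Ei (Lat g)) hL.cov0 hL.covi hne
    (fun u v => Same (tt (Lat g)) (vec g u) (vec g v)) (fun u v h => h.symm)
    (fun u v w h h' => h.trans h') ?_ (fun u u' h1 h2 h3 h4 => hA g hg u u' h1 h2 h3 h4)
    v w hv.1 hw.1 (fun c hc => hv.2 c hc) (fun c hc => hw.2 c hc)
  intro u v c hc h
  show Same _ _ _
  rw [vec_smul, same_smul_C_right hc]; exact h

/-- mobile lines are good -/
theorem mobile_good (hLF : LatFrStmt) (hC : CovBasicStmt) (hA : StepAStmt) {g : M2} (hg : IsFr g)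
    {v : Q2} {c0 c1 : ℚ} (h0 : 0 < c0) (h1 : 0 < c1) (hne : c0 ≠ c1)
    (hp0 : Prim (E0 (Lat g)) (c0 • v)) (hp1 : Prim (Ei (Lat g)) (c1 • v)) :
    Good (tt (Lat g)) (vec g v) := by
  have hL := hLF g hg
  rcases lt_or_gt_of_ne hne with hlt | hgt
  · obtain ⟨u', hu', hd⟩ := (hC _ hL.covi).2.1 _ hp1
    have hpu' : Prim (Ei (Lat g)) u' := ((hC _ hL.covi).2.2.1 _ hp1.1 u' hu' hd).2.1
    rw [dq_smul_left] at hd
    have hd' : dq (c0 • v) u' = c0 / c1 := by
      rw [dq_smul_left, div_eq_mul_inv]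
      have : dq v u' = c1⁻¹ := eq_inv_of_mul_eq_one_right hd
      rw [this]
    have hpos : 0 < c0 / c1 := div_pos h0 h1
    have hlt1 : c0 / c1 < 1 := (div_lt_one h1).2 hlt
    have := (hA g hg (c0 • v) u' hp0 hpu' (by rw [hd', abs_of_pos hpos]; exact hpos)
      (by rw [hd', abs_of_pos hpos]; exact hlt1)).left
    rwa [vec_smul, good_smul_C h0.ne'] at this
  · obtain ⟨u', hu', hd⟩ := (hC _ hL.cov0).2.1 _ hp0
    have hpu' : Prim (E0 (Lat g)) u' := ((hC _ hL.cov0).2.2.1 _ hp0.1 u' hu' hd).2.1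
    rw [dq_smul_left] at hd
    have hd' : dq (-u') (c1 • v) = c1 / c0 := by
      rw [dq_smul_right, div_eq_mul_inv]
      have h2 : dq (-u') v = dq v u' := by simp [dq]; ring
      have : dq v u' = c0⁻¹ := eq_inv_of_mul_eq_one_right hd
      rw [h2, this]
    have hpos : 0 < c1 / c0 := div_pos h1 h0
    have hlt1 : c1 / c0 < 1 := (div_lt_one h0).2 hgt
    have := (hA g hg (-u') (c1 • v) hpu'.neg hp1 (by rw [hd', abs_of_pos hpos]; exact hpos)
      (by rw [hd', abs_of_pos hpos]; exact hlt1)).right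
    rwa [vec_smul, good_smul_C h1.ne'] at this

theorem two_le_ord {L : AddSubgroup V} {u : Q2} (hpos : 0 < ord L u) (h : u ∉ Lam L) : 2 ≤ ord L u := by
  by_contra hlt
  have h1 : ord L u = 1 := by omega
  rw [ord, AddMonoid.addOrderOf_eq_one_iff, QuotientAddGroup.eq_zero_iff] at h1
  exact h h1

theorem iso_good (hLF : LatFrStmt) (hB : BasStmt) (hT : TieStmt) (hBd : BoundStmt)
    (hC : CovBasicStmt) (hA : StepAStmt) :
    ∀ n : ℕ, ∀ g : M2, IsFr g → ∀ u : Q2, Iso (Lat g) u → 2 ≤ ord (Lat g) u → R0 (Lat g) u = n →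
      Good (tt (Lat g)) (vec g u) := by
  intro n
  induction n using Nat.strong_induction_on with
  | _ n ih =>
    intro g hg u hu hord hn
    have hL := hLF g hg
    obtain ⟨u', hu', hd⟩ := (hC _ hL.covi).2.1 _ hu.2
    have hpu' : Prim (Ei (Lat g)) u' := ((hC _ hL.covi).2.2.1 _ hu.2.1 u' hu' hd).2.1
    obtain ⟨hL', htt, hall⟩ := hB (Lat g) hL u u' hd
    have hE0 : ∀ v, v ∈ E0 (cm (bas u u') (Lat g)) ↔ bv u u' v ∈ E0 (Lat g) := fun v => (hall v).1
    have hEi : ∀ v, v ∈ Ei (cm (bas u u') (Lat g)) ↔ bv u u' v ∈ Ei (Lat g) := fun v => (hall v).2.1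
    have hp1 : Prim (E0 (cm (bas u u') (Lat g))) e1 := by
      apply prim_E0_bas hE0; rw [bv_e1]; exact hu.1
    have hp2 : Prim (Ei (cm (bas u u') (Lat g))) e2 := by
      apply prim_Ei_bas hEi; rw [bv_e2]; exact hpu'
    obtain ⟨ht1, _, ht3, _, _, ht6, _, _, ht9⟩ := hT _ hL' hp1 hp2
    set h := g * bas u u' * Dm 1 with hh
    have hLh : Lat h = cm (Dm 1) (cm (bas u u') (Lat g)) := by rw [hh, Lat_mul, Lat_mul]
    rw [← hLh] at ht1 ht3 ht6 ht9
    have hfr : IsFr h := (hg.mul_bas hd).mul_Dm 1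
    have htt2 : tt (Lat h) = tt (Lat g) := ht1.trans htt
    have hvec : vec h e1 = vec g u := by rw [hh, vec_mul_Dm_e1, vec_mul_bas, bv_e1]
    have hord1 : ord (cm (bas u u') (Lat g)) e1 = ord (Lat g) u := by
      rw [(hall e1).2.2.2.1, bv_e1]
    have hR1 : R0 (cm (bas u u') (Lat g)) e1 = R0 (Lat g) u := by
      rw [(hall e1).2.2.2.2.2, bv_e1]
    rw [hord1] at ht6 ht9
    rw [hR1] at ht9
    by_cases hp : Prim (E0 (Lat h)) e1
    · have hlt : R0 (Lat h) e1 < n := by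
        have hne : R0 (Lat h) e1 ≠ 0 := (hBd _ (hLF h hfr) e1).2.2.1
        have : R0 (Lat h) e1 * 2 ≤ R0 (Lat h) e1 * ord (Lat g) u := Nat.mul_le_mul_left _ hord
        omega
      have := ih _ hlt h hfr e1 ⟨hp, ht3⟩ (by rw [ht6]; exact hord) rfl
      rwa [htt2, hvec] at this
    · obtain ⟨c, hc, hpc⟩ := (hC _ (hLF h hfr).cov0).1 e1 e1_ne_zero
      have hc1 : c ≠ 1 := by
        rintro rfl
        rw [one_smul] at hpc
        exact hp hpc
      have := mobile_good hLF hC hA hfr hc one_pos hc1 hpc (by rwa [one_smul])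
      rwa [htt2, hvec] at this

theorem descent (hLF : LatFrStmt) (hB : BasStmt) (_hD : DStepStmt) (hT : TieStmt) (hBd : BoundStmt)
    (hC : CovBasicStmt) (hA : StepAStmt) : DescentStmt := by
  intro g hg v hv hcl
  have hL := hLF g hg
  obtain ⟨c0, hc0, hp0⟩ := (hC _ hL.cov0).1 v hv
  obtain ⟨c1, hc1, hp1⟩ := (hC _ hL.covi).1 v hv
  by_cases hne : c0 = c1
  · subst hne
    have hiso : Iso (Lat g) (c0 • v) := ⟨hp0, hp1⟩
    have hlam : c0 • v ∉ Lam (Lat g) := fun h => hcl c0 ⟨hiso, h⟩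
    have hord := two_le_ord (hBd _ hL (c0 • v)).2.2.2 hlam
    have := iso_good hLF hB hT hBd hC hA _ g hg (c0 • v) hiso hord rfl
    rwa [vec_smul, good_smul_C hc0.ne'] at this
  · exact mobile_good hLF hC hA hg hc0 hc1 hne hp0 hp1

end Pool.Agent.Helper15.EL
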